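import Mathlib
import Pool.Agent.K4H49.IR.Spec

/-! # Piece MONO of MP_5484c7_co -/

set_option autoImplicit false

open Finset

namespace Pool.Agent.K4H71.IR

open Pool.Agent.K4H49.IR

def adjN (m i j : ℕ) : Prop :=
  i ≠ j ∧ (2 * m < i + j ∨ (i = 0 ∧ j = m + 1) ∨ (j = 0 ∧ i = m + 1))

instance (m i : ℕ) : DecidablePred (adjN m i) := fun j => by unfold adjN; infer_instance

def S (m i : ℕ) : Finset ℕ := (range (2 * m + 1)).filter (adjN m i)

theorem nb_eq (m : ℕ) (i : Fin (2 * m + 1)) :
    (A m).neighborFinset i = univ.filter (fun j => adjN m i.1 j.1) := by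
  ext j
  simp only [SimpleGraph.mem_neighborFinset, mem_filter, mem_univ, true_and, A, adjN]
  constructor
  · rintro ⟨h1, h2⟩; exact ⟨fun h => h1 (Fin.ext h), h2⟩
  · rintro ⟨h1, h2⟩; exact ⟨fun h => h1 (congrArg _ h), h2⟩

theorem nb_sum (m : ℕ) (i : Fin (2 * m + 1)) (f : ℕ → ℕ) :
    ∑ y ∈ (A m).neighborFinset i, f y.1 = ∑ y ∈ S m i.1, f y := by
  rw [nb_eq, Finset.sum_filter, S, Finset.sum_filter]
  exact Fin.sum_univ_eq_sum_range (fun y => if adjN m i.1 y then f y else 0) (2 * m + 1)

theorem deg_eq (m : ℕ) (i : Fin (2 * m + 1)) : (A m).degree i = (S m i.1).card := by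
  have h := nb_sum m i (fun _ => 1)
  simpa using h

theorem S_zero (m : ℕ) (hm : 3 ≤ m) : S m 0 = {m + 1} := by
  ext j; simp only [S, mem_filter, mem_range, adjN, mem_singleton, true_and]; omega

theorem S_low (m i : ℕ) (h1 : 1 ≤ i) (h2 : i ≤ m) : S m i = Ico (2 * m + 1 - i) (2 * m + 1) := by
  ext j; simp only [S, mem_filter, mem_range, adjN, mem_Ico]; omega

theorem S_mid (m : ℕ) (hm : 3 ≤ m) :
    S m (m + 1) = insert 0 ((Ico m (2 * m + 1)).erase (m + 1)) := by
  ext j
  simp only [S, mem_filter, mem_range, adjN, mem_insert, mem_erase, mem_Ico, and_true]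
  omega

theorem S_high (m i : ℕ) (h1 : m + 2 ≤ i) (h2 : i ≤ 2 * m) :
    S m i = (Ico (2 * m + 1 - i) (2 * m + 1)).erase i := by
  ext j; simp only [S, mem_filter, mem_range, adjN, mem_erase, mem_Ico]; omega

/-- the degree -/
def d (m i : ℕ) : ℕ := if i = 0 then 1 else if i ≤ m then i else if i = m + 1 then m + 1 else i - 1

theorem card_S (m i : ℕ) (hm : 3 ≤ m) (hi : i ≤ 2 * m) : (S m i).card = d m i := by
  unfold d
  split_ifs with h1 h2 h3
  · subst h1; rw [S_zero m hm]; simp
  · rw [S_low m i (by omega) h2]; simp; omega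
  · subst h3
    rw [S_mid m hm, card_insert_of_notMem (by simp; omega), card_erase_of_mem (by simp; omega)]
    simp; omega
  · rw [S_high m i (by omega) hi, card_erase_of_mem (by simp; omega)]
    simp; omega

/-- the weight -/
def W (m n i : ℕ) : ℕ := (d m i - 1).choose (n - 1)

def T (m n i : ℕ) : ℕ := ∑ y ∈ Ico (2 * m + 1 - i) (2 * m + 1), W m n y

theorem T_succ (m n i : ℕ) (hi : i < 2 * m + 1) : T m n (i + 1) = W m n (2 * m - i) + T m n i := by
  unfold T
  have h1 : 2 * m + 1 - (i + 1) = 2 * m - i := by omega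
  have h2 : 2 * m + 1 - i = 2 * m - i + 1 := by omega
  rw [h1, h2, Finset.sum_eq_sum_Ico_succ_bot (by omega)]

def s (m n i : ℕ) : ℕ := (d m i).choose n + ∑ y ∈ S m i, W m n y

theorem sn_eq (m n : ℕ) (hm : 3 ≤ m) (i : Fin (2 * m + 1)) : sn (A m) n i = s m n i.1 := by
  have hd : ∀ y : Fin (2 * m + 1), (A m).degree y = d m y.1 := fun y => by
    rw [deg_eq, card_S m _ hm (by omega)]
  unfold sn s
  rw [hd, ← nb_sum m i (W m n)]
  congr 1
  exact Finset.sum_congr rfl fun y _ => by rw [hd]; rfl

theorem s_low (m n i : ℕ) (h1 : 1 ≤ i) (h2 : i ≤ m) : s m n i = i.choose n + T m n i := by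
  unfold s T
  rw [S_low m i h1 h2, d, if_neg (by omega), if_pos h2]

theorem s_mid (m n : ℕ) (hm : 3 ≤ m) (hn : 2 ≤ n) :
    s m n (m + 1) + m.choose (n - 1) = (m + 1).choose n + T m n (m + 1) := by
  unfold s T
  rw [S_mid m hm, sum_insert (by simp; omega)]
  have h0 : W m n 0 = 0 := by
    unfold W d
    rw [if_pos rfl]
    exact Nat.choose_eq_zero_of_lt (by omega)
  have hW : W m n (m + 1) = m.choose (n - 1) := by
    unfold W d; simp
  have h1 : (m + 1) ∈ Ico m (2 * m + 1) := by simp; omega
  have h2 := Finset.sum_erase_add (f := W m n) _ h1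
  have h3 : 2 * m + 1 - (m + 1) = m := by omega
  rw [h3, ← h2, h0, hW, d, if_neg (by omega), if_neg (by omega), if_pos rfl]
  ring

theorem W_high (m n i : ℕ) (h1 : m + 2 ≤ i) : W m n i = (i - 2).choose (n - 1) := by
  unfold W d
  rw [if_neg (by omega), if_neg (by omega), if_neg (by omega)]
  congr 1

theorem s_high (m n i : ℕ) (h1 : m + 2 ≤ i) (h2 : i ≤ 2 * m) :
    s m n i + (i - 2).choose (n - 1) = (i - 1).choose n + T m n i := by
  unfold s T
  rw [S_high m i h1 h2]
  have h3 : i ∈ Ico (2 * m + 1 - i) (2 * m + 1) := by simp; omega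
  have h4 := Finset.sum_erase_add (f := W m n) _ h3
  rw [W_high m n i h1] at h4
  rw [← h4, d, if_neg (by omega), if_neg (by omega), if_neg (by omega)]
  ring

theorem step (m n : ℕ) (hn : 2 ≤ n) (hm : n + 1 ≤ m) (i : ℕ) (hi : i < 2 * m) :
    s m n i < s m n (i + 1) := by
  obtain ⟨k, rfl⟩ : ∃ k, n = k + 2 := ⟨n - 2, by omega⟩
  have hk : k + 2 - 1 = k + 1 := by omega
  rcases Nat.eq_zero_or_pos i with h0 | h0
  · subst h0
    have e1 : s m (k + 2) (0 + 1) = (2 * m - 2).choose (k + 1) := by
      rw [zero_add, s_low m _ 1 le_rfl (by omega)]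
      have := T_succ m (k + 2) 0 (by omega)
      rw [zero_add] at this
      rw [this, Nat.sub_zero, W_high m _ _ (by omega), hk,
        Nat.choose_eq_zero_of_lt (show 1 < k + 2 by omega)]
      simp [T]
    have e0 : s m (k + 2) 0 = m.choose (k + 1) := by
      unfold s
      rw [S_zero m (by omega), sum_singleton]
      have hW : W m (k + 2) (m + 1) = m.choose (k + 1) := by
        unfold W d; simp
      rw [hW, d, if_pos rfl, Nat.choose_eq_zero_of_lt (show 1 < k + 2 by omega), zero_add]
    rw [e0, e1]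
    calc m.choose (k + 1) < (m + 1).choose (k + 1) := by
          rw [Nat.choose_succ_succ' m k]
          have := Nat.choose_pos (n := m) (k := k) (by omega)
          omega
      _ ≤ (2 * m - 2).choose (k + 1) := Nat.choose_le_choose _ (by omega)
  · rcases lt_trichotomy i m with h1 | h1 | h1
    · -- 1 ≤ i < m
      rw [s_low m _ i h0 h1.le, s_low m _ (i + 1) (by omega) (by omega), T_succ m _ i (by omega)]
      have h2 : i.choose (k + 2) ≤ (i + 1).choose (k + 2) := Nat.choose_le_choose _ (by omega)
      have h3 : 0 < W m (k + 2) (2 * m - i) := by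
        unfold W
        apply Nat.choose_pos
        unfold d
        split_ifs <;> omega
      omega
    · subst h1
      have h2 := s_low i (k + 2) i h0 le_rfl
      have h3 := s_mid i (k + 2) (by omega) (by omega)
      have h4 := T_succ i (k + 2) i (by omega)
      have h5 : 2 * i - i = i := by omega
      have h6 : 0 < W i (k + 2) i := by
        unfold W
        apply Nat.choose_pos
        unfold d
        split_ifs <;> omega
      have h7 : (i + 1).choose (k + 2) = i.choose (k + 1) + i.choose (k + 2) :=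
        Nat.choose_succ_succ' i (k + 1)
      rw [h5] at h4
      rw [hk] at h3
      omega
    · rcases Nat.lt_or_ge i (m + 2) with h2 | h2
      · have h3 : i = m + 1 := by omega
        subst h3
        have e1 := s_mid m (k + 2) (by omega) (by omega)
        have e2 := s_high m (k + 2) (m + 1 + 1) le_rfl (by omega)
        have e3 := T_succ m (k + 2) (m + 1) (by omega)
        have e4 : 0 < W m (k + 2) (2 * m - (m + 1)) := by
          unfold W
          apply Nat.choose_pos
          unfold d
          split_ifs <;> omega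
        have e5 : m + 1 + 1 - 2 = m := by omega
        have e6 : m + 1 + 1 - 1 = m + 1 := by omega
        rw [e5, e6] at e2
        omega
      · have e1 := s_high m (k + 2) i h2 hi.le
        have e2 := s_high m (k + 2) (i + 1) (by omega) (by omega)
        have e3 := T_succ m (k + 2) i (by omega)
        have e5 : i + 1 - 2 = i - 1 := by omega
        have e6 : i + 1 - 1 = i := by omega
        rw [e5, e6, hk] at e2
        rw [hk] at e1
        obtain ⟨j, rfl⟩ : ∃ j, i = j + 2 := ⟨i - 2, by omega⟩
        have e7 : j + 2 - 2 = j := by omega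
        have e8 : j + 2 - 1 = j + 1 := by omega
        rw [e7, e8] at e1
        rw [e8] at e2
        have e9 : (j + 2).choose (k + 2) = (j + 1).choose (k + 1) + (j + 1).choose (k + 2) :=
          Nat.choose_succ_succ' (j + 1) (k + 1)
        have e12 : 0 < j.choose (k + 1) := Nat.choose_pos (by omega)
        omega

end Pool.Agent.K4H71.IR

namespace Pool.Agent.K4H49.IR

/-- [MONO] -/
theorem mono : StMono := by
  intro n m hn hm
  rw [Fin.strictMono_iff_lt_succ]
  intro i
  rw [K4H71.IR.sn_eq m n (by omega), K4H71.IR.sn_eq m n (by omega)]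
  exact K4H71.IR.step m n hn hm i.1 i.2

end Pool.Agent.K4H49.IR
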